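import Pool.Agent.W492.BB.Calc

/-!
# Bloch-Beilinson filtrations on the Chow groups of a single variety
-/

open CategoryTheory AlgebraicGeometry

universe u v w

namespace Pool.Agent.Q69.BB

open Pool.Agent.H914 Pool.Agent.H914.VarClass Pool.Agent.H914.VarClass.Obj Pool.Agent.W492.BB

variable {k : Type u} [Field k] {𝒱 : VarClass k} {C : TheoryData.{u, v, 0} 𝒱 ℚ} {K : Type w}
  [Field K] (H : WeilTheoryData.{u, v, w} C K)

/-- `Φ i n` is the step `F^n CH^i(P)` of a filtration of the Chow groups of the single variety `P`: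
the properties 1 and 2 of a Bloch-Beilinson filtration hold, every self-correspondence of `P` (of
any degree) respects the filtration, and it maps `F^n CH^j(P)` to `F^(n+1) CH^i(P)` if it is
homologically trivial or, when the Kunneth standard conjecture holds, if it acts as zero on
`H^(2j-n)(P)`. No compatibility with products of cycles is required. -/
structure IsBBSingle (P : 𝒱.Obj) (Φ : ℕ → ℕ → Submodule ℚ (C.A P)) : Prop where
  anti : ∀ i n : ℕ, Φ i (n + 1) ≤ Φ i n
  zero : ∀ (i : ℕ) (x : C.A P), x ∈ Φ i 0 ↔ C.Deg i x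
  one : ∀ (i : ℕ) (x : C.A P), x ∈ Φ i 1 ↔ C.Deg i x ∧ H.cl x = 0
  top : ∀ i : ℕ, Φ i (i + 1) = ⊥
  stable : ∀ (j i n : ℕ) (Γ : C.A (P.prod P)), C.Deg (P.dim + i - j) Γ →
    ∀ z ∈ Φ j n, C.act Γ z ∈ Φ i n
  shift : ∀ (j i n : ℕ) (Γ : C.A (P.prod P)), C.Deg (P.dim + i - j) Γ →
    Admissible H Γ (2 * j - n) → ∀ z ∈ Φ j n, C.act Γ z ∈ Φ i (n + 1)

/-- `AdmChain H P n i x`: the class `x ∈ CH^i(P)` is obtained from a cycle class on `P` by applying
successively `n` self-correspondences of `P` (of any degrees), where the correspondence applied at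
the `(r+1)`-st step to a class in `CH^j(P)` is homologically trivial or, when the Kunneth standard
conjecture holds, acts as zero on `H^(2j-r)(P)`. -/
inductive AdmChain (P : 𝒱.Obj) : ℕ → ℕ → C.A P → Prop
  | nil (i : ℕ) (x : C.A P) (hx : C.Deg i x) : AdmChain P 0 i x
  | cons (r j i : ℕ) (z : C.A P) (Γ : C.A (P.prod P)) (hz : AdmChain P r j z)
      (hΓ : C.Deg (P.dim + i - j) Γ) (had : Admissible H Γ (2 * j - r)) :
      AdmChain P (r + 1) i (C.act Γ z)

end Pool.Agent.Q69.BB
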