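import Pool.Agent.Q69.BB.One
import Pool.Agent.Q69.BB.SingleDef

/-!
# Bloch-Beilinson filtrations with products: one variety at a time
-/

open CategoryTheory AlgebraicGeometry

universe u v w

namespace Pool.Agent.Q69.BB

open Pool.Agent.H914 Pool.Agent.H914.VarClass Pool.Agent.H914.VarClass.Obj Pool.Agent.W492.BB
  Pool.Agent.W550.Corr Pool.Agent.TH133 Pool.Agent.Y148.BB

set_option linter.unusedSectionVars false

variable {k : Type u} [Field k] {𝒱 : VarClass k}

section defs

variable {C : TheoryData.{u, v, 0} 𝒱 ℚ} {K : Type w} [Field K] (H : WeilTheoryData.{u, v, w} C K)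

/-- The smallest filtration with the strong shift property. -/
noncomputable def admFil : ℕ → (X : 𝒱.Obj) → ℕ → Submodule ℚ (C.A X)
  | 0, X, j => C.gr X j
  | (n + 1), X, i => Submodule.span ℚ {c | ∃ (Z : 𝒱.Obj) (j : ℕ) (z : C.A Z) (Γ : C.A (Z.prod X)),
      z ∈ admFil n Z j ∧ C.Deg (Z.dim + i - j) Γ ∧ Admissible H Γ (2 * j - n) ∧
      c = C.act Γ z}

end defs

section main

variable {C : TheoryData.{u, v, 0} 𝒱 ℚ} [hC : IsChowProj C] {K : Type w} [Field K]
  {H : WeilTheoryData.{u, v, w} C K} [hH : IsWeilProj H] {X Y Z W P : 𝒱.Obj}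

include hC hH

lemma admissible_comp_left {Γ : C.A (X.prod Y)} {Δ : C.A (Y.prod Z)} {m : ℤ}
    (h : Admissible H Γ m) : Admissible H (C.comp Γ Δ) m := by
  rcases h with h | ⟨hK, h⟩
  · exact Or.inl fun l => kills_comp_of_left H (h l)
  · exact Or.inr ⟨hK, kills_comp_of_left H h⟩

lemma admissible_comp_right {Γ : C.A (X.prod Y)} {Δ : C.A (Y.prod Z)} {m n a : ℤ}
    (hΓ : C.Deg a Γ) (hm : m + 2 * a = 2 * X.dim + n) (h : Admissible H Δ n) :
    Admissible H (C.comp Γ Δ) m := by
  rcases h with h | ⟨hK, h⟩
  · exact Or.inl fun l => kills_comp_of_right H (m := l) (n := l + 2 * a - 2 * X.dim) hΓ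
      (by ring) (h _)
  · exact Or.inr ⟨hK, kills_comp_of_right H hΓ hm h⟩

lemma admFil_stable (ν : ℕ) (X Y : 𝒱.Obj) (j i : ℕ)
    (Γ : C.A (X.prod Y)) (hΓ : C.Deg (X.dim + i - j) Γ) (z : C.A X)
    (hz : z ∈ admFil H ν X j) : C.act Γ z ∈ admFil H ν Y i := by
  rcases ν with _ | n
  · exact act_mem_deg hΓ (i := j) hz (by ring)
  · rw [admFil] at hz
    induction hz using Submodule.span_induction with
    | mem x hx =>
      obtain ⟨Z, j', z, Δ, hz, hΔ, hk, rfl⟩ := hx
      rw [admFil]
      apply Submodule.subset_span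
      refine ⟨Z, j', z, C.comp Δ Γ, hz, comp_mem_deg hΔ hΓ (by ring),
        admissible_comp_left hk, ?_⟩
      rw [C.act_comp]
    | zero => rw [C.act_map_zero]; exact Submodule.zero_mem _
    | add x y _ _ hx hy => rw [act_map_add]; exact Submodule.add_mem _ hx hy
    | smul q x _ hx => rw [act_map_smul]; exact Submodule.smul_mem _ _ hx

lemma admFil_shift (ν : ℕ) (X Y : 𝒱.Obj) (j i : ℕ)
    (Γ : C.A (X.prod Y)) (hΓ : C.Deg (X.dim + i - j) Γ) (hk : Admissible H Γ (2 * j - ν))
    (z : C.A X) (hz : z ∈ admFil H ν X j) : C.act Γ z ∈ admFil H (ν + 1) Y i := by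
  rw [admFil]
  exact Submodule.subset_span ⟨X, j, z, Γ, hz, hΓ, hk, rfl⟩

lemma admFil_anti (ν : ℕ) (X : 𝒱.Obj) (j : ℕ) :
    admFil H (ν + 1) X j ≤ admFil H ν X j := by
  rw [admFil, Submodule.span_le]
  rintro _ ⟨Z, i, z, Γ, hz, hΓ, hk, rfl⟩
  exact admFil_stable _ _ _ _ _ _ hΓ _ hz

lemma admFil_anti' {m n : ℕ} (h : m ≤ n) (X : 𝒱.Obj) (j : ℕ) :
    admFil H n X j ≤ admFil H m X j := by
  induction h with
  | refl => exact le_rfl
  | step h ih => exact (admFil_anti _ X j).trans ih

lemma admFil_one (X : 𝒱.Obj) (j : ℕ) (z : C.A X) :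
    z ∈ admFil H 1 X j ↔ C.Deg j z ∧ H.cl z = 0 := by
  constructor
  · intro hz
    refine ⟨admFil_anti 0 X j hz, ?_⟩
    rw [admFil] at hz
    have h1 : Submodule.span ℚ {c | ∃ (Z : 𝒱.Obj) (j' : ℕ) (z : C.A Z) (Γ : C.A (Z.prod X)),
      z ∈ admFil H 0 Z j' ∧ C.Deg (Z.dim + j - j') Γ ∧ Admissible H Γ (2 * j' - ((0 : ℕ) : ℤ)) ∧
      c = C.act Γ z} ≤ homTriv H X := by
      rw [Submodule.span_le]
      rintro _ ⟨Z, i, z, Γ, hz, hΓ, hk, rfl⟩
      rw [SetLike.mem_coe, mem_homTriv, cl_act]
      have h2 := H.cl_mem (show z ∈ C.gr Z (i : ℤ) from hz)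
      rcases hk with hk | ⟨_, hk⟩
      · exact hk _ _ h2
      · exact hk _ (by simpa using h2)
    exact (mem_homTriv H).1 (h1 hz)
  · rintro ⟨hz, h0⟩
    have h1 : C.act (C.mulCorr z) 1 = z := by rw [C.act_mulCorr, mul_one]
    rw [← h1]
    refine admFil_shift 0 X X 0 j _ ?_ ?_ 1 (C.one_mem X)
    · have h := C.push_mem (Obj.lift (𝟙 X) (𝟙 X)) hz
      exact gr_congr (by rw [dim_prod]; push_cast; ring) h
    · left
      intro l a _
      have h2 : H.cl (C.mulCorr z) = 0 := by
        rw [TheoryData.mulCorr, H.cl_push, h0, map_zero]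
      rw [h2, TheoryData.act_zero]

/-- The main step: the classes in `admFil` are controlled by the filtrations of single
varieties. -/
lemma admFil_single (ν : ℕ) (X : 𝒱.Obj) (j : ℕ) (z : C.A X) (hz : z ∈ admFil H ν X j) :
    ∃ W : 𝒱.Obj, ∀ P, Sub C W P → ∀ Φ, IsBBSingle H P Φ →
      ∀ (i : ℕ) (Γ : C.A (X.prod P)), C.Deg (X.dim + i - j) Γ → C.act Γ z ∈ Φ i ν := by
  induction ν generalizing X j z with
  | zero =>
    refine ⟨X, fun P _ Φ hF i Γ hΓ => (hF.zero i _).2 ?_⟩
    exact act_mem_deg hΓ (i := j) hz (by ring)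
  | succ n ih =>
    rw [admFil] at hz
    induction hz using Submodule.span_induction with
    | mem x hx =>
      obtain ⟨Z, j', z', Γ', hz', hΓ', hk, rfl⟩ := hx
      obtain ⟨W', hW'⟩ := ih Z j' z' hz'
      refine ⟨W'.prod Z, fun P hP Φ hF i Γ hΓ => ?_⟩
      obtain ⟨α, β, hα, hβ, hαβ⟩ := sub_trans (sub_snd (C := C) W' Z) hP
      have h1 : C.act α z' ∈ Φ j' n :=
        hW' P (sub_trans (sub_fst W' Z) hP) Φ hF j' α (by
          have e : (Z.dim : ℤ) + j' - j' = Z.dim := by ring
          rw [e]; exact hα)
      have hk2 : Admissible H (C.comp (C.comp β Γ') Γ) (2 * j' - n) :=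
        admissible_comp_left (admissible_comp_right hβ (by ring) hk)
      have h2 := hF.shift j' i n (C.comp (C.comp β Γ') Γ)
        (comp_mem_deg (comp_mem_deg hβ hΓ' (c := P.dim + j - j') (by ring)) hΓ (by ring))
        hk2 _ h1
      have h3 : C.act (C.comp (C.comp β Γ') Γ) (C.act α z') = C.act Γ (C.act Γ' z') := by
        rw [C.act_comp, C.act_comp, ← C.act_comp α β, hαβ, act_dg]
      rw [h3] at h2
      exact h2
    | zero =>
      refine ⟨X, fun P _ Φ hF i Γ hΓ => ?_⟩
      rw [C.act_map_zero]
      exact Submodule.zero_mem _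
    | add x y _ _ hx hy =>
      obtain ⟨W1, h1⟩ := hx
      obtain ⟨W2, h2⟩ := hy
      refine ⟨W1.prod W2, fun P hP Φ hF i Γ hΓ => ?_⟩
      rw [act_map_add]
      exact Submodule.add_mem _ (h1 P (sub_trans (sub_fst W1 W2) hP) Φ hF i Γ hΓ)
        (h2 P (sub_trans (sub_snd W1 W2) hP) Φ hF i Γ hΓ)
    | smul q x _ hx =>
      obtain ⟨W1, h1⟩ := hx
      refine ⟨W1, fun P hP Φ hF i Γ hΓ => ?_⟩
      rw [act_map_smul]
      exact Submodule.smul_mem _ _ (h1 P hP Φ hF i Γ hΓ)

lemma admFil_top {D : 𝒱.Obj → Prop} (hD : ∀ X, SummandOf C D X)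
    (h : ∀ P, D P → ∃ Φ, IsBBSingle H P Φ) (X : 𝒱.Obj) (j : ℕ) :
    admFil H (j + 1) X j = ⊥ := by
  rw [eq_bot_iff]
  intro z hz
  rw [Submodule.mem_bot]
  obtain ⟨W, hW⟩ := admFil_single (j + 1) X j z hz
  obtain ⟨P, hP, hWP⟩ := hD (W.prod X)
  obtain ⟨F, hF⟩ := h P hP
  obtain ⟨α, β, hα, hβ, hαβ⟩ := sub_trans (sub_snd (C := C) W X) hWP
  have h1 := hW P (sub_trans (sub_fst W X) hWP) F hF j α (by
    have e : (X.dim : ℤ) + j - j = X.dim := by ring
    rw [e]; exact hα)
  rw [hF.top j, Submodule.mem_bot] at h1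
  rw [← act_dg C z, ← hαβ, C.act_comp, h1, C.act_map_zero]

/-- The Kunneth projectors, in all degrees. -/
lemma exists_kunneth (hK : KunnethConjecture H) (X : 𝒱.Obj) (m : ℤ) :
    ∃ π : C.A (X.prod X), C.Deg X.dim π ∧ ∀ (l : ℤ) (a : H.A X),
      H.Deg l a → H.act (H.cl π) a = if l = m then a else 0 := by
  by_cases hm : 0 ≤ m
  · obtain ⟨m, rfl⟩ := Int.eq_ofNat_of_zero_le hm
    exact hK X m
  · refine ⟨0, Submodule.zero_mem _, fun l a ha => ?_⟩
    rw [actH_zero]
    split_ifs with h
    · subst h
      have ha' : a ∈ H.gr X l := ha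
      rw [H.gr_neg X l (by omega)] at ha'
      exact ((Submodule.mem_bot _).1 ha').symm
    · rfl

/-- The external product of two correspondences kills `H^m` if it kills all the products of
classes. -/
lemma kills_tens {Γ : C.A (X.prod Y)} {Δ : C.A (Z.prod W)} {m : ℤ}
    (h : ∀ (l : ℤ) (a : H.A X) (b : H.A Z), H.Deg l a → H.Deg (m - l) b →
      H.act (H.cl Γ) a = 0 ∨ H.act (H.cl Δ) b = 0) : Kills H (tens C Γ Δ) m := by
  intro c hc
  have h1 := H.kunneth X Z m hc
  clear hc
  induction h1 using Submodule.span_induction with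
  | mem x hx =>
    obtain ⟨l, a, b, ha, hb, rfl⟩ := hx
    have e0 : H.pull (fst X Z) a * H.pull (snd X Z) b = H.ext a b := rfl
    rw [e0, actH_tens_ext]
    rcases h l a b ha hb with h1 | h1
    · rw [h1, TheoryData.ext_zero_left]
    · rw [h1, TheoryData.ext_zero_right]
  | zero => rw [TheoryData.act_map_zero]
  | add x y _ _ hx hy => rw [act_map_add, hx, hy, add_zero]
  | smul r x _ hx => rw [act_map_smul, hx, smul_zero]

lemma ext_add_left (x x' : C.A X) (y : C.A Y) : C.ext (x + x') y = C.ext x y + C.ext x' y := by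
  rw [TheoryData.ext, map_add, add_mul]; rfl

lemma ext_add_right (x : C.A X) (y y' : C.A Y) : C.ext x (y + y') = C.ext x y + C.ext x y' := by
  rw [TheoryData.ext, map_add, mul_add]; rfl

lemma ext_smul_left (q : ℚ) (x : C.A X) (y : C.A Y) : C.ext (q • x) y = q • C.ext x y := by
  rw [TheoryData.ext, map_smul, smul_mul_assoc]; rfl

lemma act_tens_ext_ch (Γ : C.A (X.prod Y)) (Δ : C.A (Z.prod W)) (a : C.A X) (b : C.A Z) :
    C.act (tens C Γ Δ) (C.ext a b) = C.ext (C.act Γ a) (C.act Δ b) :=
  act_tens_ext C Γ Δ (fun f c => ch_comm C _ _) a b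

/-- External products are compatible with the smallest filtration, if it is finite. -/
lemma ext_mem_admFil (hvan : ∀ (X : 𝒱.Obj) (j : ℕ), admFil H (j + 1) X j = ⊥) (m : ℕ) :
    ∀ (X : 𝒱.Obj) (i : ℕ) (x : C.A X), x ∈ admFil H m X i → ∀ (Y : 𝒱.Obj) (n j : ℕ) (y : C.A Y),
      y ∈ admFil H n Y j → C.ext x y ∈ admFil H (m + n) (X.prod Y) (i + j) := by
  induction m with
  | zero =>
    intro X i x hx Y n j y hy
    have h1 : C.ext x y = C.act (C.comp (C.cograph (snd X Y)) (C.mulCorr (C.pull (fst X Y) x))) y
      := by rw [C.act_comp, C.act_cograph, C.act_mulCorr]; rfl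
    rw [h1, Nat.zero_add]
    refine admFil_stable n Y (X.prod Y) j (i + j) _ ?_ y hy
    have h2 : C.Deg (Y.dim : ℤ) (C.cograph (snd X Y)) := cograph_mem (snd X Y)
    have h3 : C.Deg ((X.prod Y).dim + (i : ℤ)) (C.mulCorr (C.pull (fst X Y) x)) := by
      have h := C.push_mem (Obj.lift (𝟙 (X.prod Y)) (𝟙 (X.prod Y)))
        (C.pull_mem (fst X Y) (show x ∈ C.gr X (i : ℤ) from hx))
      exact gr_congr (by simp only [dim_prod]; push_cast; ring) h
    exact comp_mem_deg h2 h3 (by push_cast; ring)
  | succ m ih =>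
    intro X i x hx
    rw [admFil] at hx
    induction hx using Submodule.span_induction with
    | zero => intro Y n j y hy; rw [TheoryData.ext_zero_left]; exact Submodule.zero_mem _
    | add x x' _ _ hx hx' =>
      intro Y n j y hy
      rw [ext_add_left (H := H)]
      exact Submodule.add_mem _ (hx Y n j y hy) (hx' Y n j y hy)
    | smul q x _ hx =>
      intro Y n j y hy
      rw [ext_smul_left (H := H)]
      exact Submodule.smul_mem _ _ (hx Y n j y hy)
    | mem x hx =>
      obtain ⟨Z, i', x', Γ, hx', hΓ, hk, rfl⟩ := hx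
      intro Y n j y hy
      rcases hk with hk | ⟨hK, hk⟩
      · have h1 := ih Z i' x' hx' Y n j y hy
        have h2 : C.ext (C.act Γ x') y = C.act (tens C Γ (dg C Y)) (C.ext x' y) := by
          rw [act_tens_ext_ch (H := H), act_dg]
        have e : m + 1 + n = m + n + 1 := by ring
        rw [h2, e]
        refine admFil_shift (m + n) (Z.prod Y) (X.prod Y) (i' + j) (i + j) _ ?_ ?_ _ h1
        · have := tens_mem C hΓ (dg_mem C Y)
          exact gr_congr (by rw [dim_prod]; push_cast; ring) this
        · left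
          exact fun l => kills_tens fun l' a b ha hb => Or.inl (hk l' a ha)
      · -- descending induction on `n`
        have key : ∀ t n : ℕ, n + t = j + 1 → ∀ y ∈ admFil H n Y j,
            C.ext (C.act Γ x') y ∈ admFil H (m + 1 + n) (X.prod Y) (i + j) := by
          intro t
          induction t with
          | zero =>
            intro n hn y hy
            rw [Nat.add_zero] at hn
            rw [hn, hvan Y j, Submodule.mem_bot] at hy
            rw [hy, TheoryData.ext_zero_right]
            exact Submodule.zero_mem _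
          | succ t iht =>
            intro n hn y hy
            obtain ⟨p, hp, hp'⟩ := exists_kunneth hK Z (2 * i' - m)
            obtain ⟨q, hq, hq'⟩ := exists_kunneth hK Y (2 * j - n)
            have h1 := ih Z i' x' hx' Y n j y hy
            have hpd : C.Deg (Z.dim : ℤ) (dg C Z - p) := Submodule.sub_mem _ (dg_mem C Z) hp
            have hqd : C.Deg (Y.dim : ℤ) (dg C Y - q) := Submodule.sub_mem _ (dg_mem C Y) hq
            have hcl : ∀ (l : ℤ) (a : H.A Z), H.Deg l a →
                H.act (H.cl (dg C Z - p)) a = if l = 2 * i' - m then 0 else a := by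
              intro l a ha
              rw [map_sub, TheoryData.act_sub, actH_dg, hp' l a ha]
              split_ifs
              · exact sub_self a
              · exact sub_zero a
            have hcl' : ∀ (l : ℤ) (a : H.A Y), H.Deg l a →
                H.act (H.cl (dg C Y - q)) a = if l = 2 * j - n then 0 else a := by
              intro l a ha
              rw [map_sub, TheoryData.act_sub, actH_dg, hq' l a ha]
              split_ifs
              · exact sub_self a
              · exact sub_zero a
            have hd1 : C.Deg ((Z.prod Y).dim + ((i + j : ℕ) : ℤ) - ((i' + j : ℕ) : ℤ))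
                (tens C (C.comp p Γ) q) := by
              have h2 : C.Deg (Z.dim + i - i' : ℤ) (C.comp p Γ) :=
                comp_mem_deg hp hΓ (by ring)
              exact gr_congr (by rw [dim_prod]; push_cast; ring) (tens_mem C h2 hq)
            have hd2 : C.Deg ((Z.prod Y).dim + ((i + j : ℕ) : ℤ) - ((i' + j : ℕ) : ℤ))
                (tens C (C.comp (dg C Z - p) Γ) q) := by
              have h2 : C.Deg (Z.dim + i - i' : ℤ) (C.comp (dg C Z - p) Γ) :=
                comp_mem_deg hpd hΓ (by ring)
              exact gr_congr (by rw [dim_prod]; push_cast; ring) (tens_mem C h2 hq)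
            have T1 : C.ext (C.act Γ (C.act p x')) (C.act q y) ∈
                admFil H (m + n + 1) (X.prod Y) (i + j) := by
              have h2 : C.ext (C.act Γ (C.act p x')) (C.act q y) =
                  C.act (tens C (C.comp p Γ) q) (C.ext x' y) := by
                rw [act_tens_ext_ch (H := H), C.act_comp]
              rw [h2]
              refine admFil_shift (m + n) (Z.prod Y) (X.prod Y) (i' + j) (i + j) _ hd1 ?_ _ h1
              left
              refine fun l => kills_tens fun l' a b ha hb => Or.inl ?_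
              rw [actH_comp, hp' l' a ha]
              split_ifs with h3
              · subst h3
                exact hk a ha
              · rw [TheoryData.act_map_zero]
            have T2 : C.ext (C.act Γ (C.act (dg C Z - p) x')) (C.act q y) ∈
                admFil H (m + n + 1) (X.prod Y) (i + j) := by
              have h2 : C.ext (C.act Γ (C.act (dg C Z - p) x')) (C.act q y) =
                  C.act (tens C (C.comp (dg C Z - p) Γ) q) (C.ext x' y) := by
                rw [act_tens_ext_ch (H := H), C.act_comp]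
              rw [h2]
              refine admFil_shift (m + n) (Z.prod Y) (X.prod Y) (i' + j) (i + j) _ hd2 ?_ _ h1
              right
              refine ⟨hK, kills_tens fun l' a b ha hb => ?_⟩
              by_cases h3 : l' = 2 * i' - m
              · left
                rw [actH_comp, hcl l' a ha, if_pos h3, TheoryData.act_map_zero]
              · right
                rw [hq' _ b hb, if_neg]
                push_cast
                omega
            have T3 : C.ext (C.act Γ x') (C.act (dg C Y - q) y) ∈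
                admFil H (m + n + 1) (X.prod Y) (i + j) := by
              have h2 : C.act (dg C Y - q) y ∈ admFil H (n + 1) Y j := by
                refine admFil_shift n Y Y j j _ ?_ ?_ y hy
                · exact gr_congr (by ring) hqd
                · right
                  refine ⟨hK, fun a ha => ?_⟩
                  rw [hcl' _ a ha, if_pos rfl]
              have h3 := iht (n + 1) (by omega) _ h2
              exact admFil_anti' (by omega) _ _ h3
            have e : m + 1 + n = m + n + 1 := by ring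
            have h5 : C.act p x' + C.act (dg C Z - p) x' = x' := by
              rw [C.act_sub, act_dg, add_sub_cancel]
            have h6 : C.act q y + C.act (dg C Y - q) y = y := by
              rw [C.act_sub, act_dg, add_sub_cancel]
            have h7 : C.ext (C.act Γ x') y = C.ext (C.act Γ (C.act p x')) (C.act q y) +
                C.ext (C.act Γ (C.act (dg C Z - p) x')) (C.act q y) +
                C.ext (C.act Γ x') (C.act (dg C Y - q) y) := by
              rw [← ext_add_left (H := H), ← act_map_add, h5, ← ext_add_right (H := H), h6]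
            rw [e, h7]
            exact Submodule.add_mem _ (Submodule.add_mem _ T1 T2) T3
        by_cases hnj : n ≤ j + 1
        · exact key (j + 1 - n) n (by omega) y hy
        · have h1 := admFil_anti' (H := H) (show j + 1 ≤ n by omega) Y j hy
          rw [hvan Y j, Submodule.mem_bot] at h1
          rw [h1, TheoryData.ext_zero_right]
          exact Submodule.zero_mem _

/-- The smallest filtration as a family of filtrations. -/
noncomputable def admFiltration (H : WeilTheoryData.{u, v, w} C K) [IsWeilProj H] :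
    Filtration C where
  F X i n := admFil H n X i
  le_gr X i n := admFil_anti' (Nat.zero_le n) X i
  anti X i n := admFil_anti n X i

lemma cograph_deg (f : X ⟶ Y) : C.Deg (Y.dim : ℤ) (C.cograph f) := cograph_mem f

lemma graph_deg (f : X ⟶ Y) : C.Deg (Y.dim : ℤ) (C.graph f) := by
  have h := wg_mem (C := C) f (C.one_mem X)
  exact gr_congr (by ring) h

lemma mulCorr_deg {i : ℤ} {c : C.A X} (hc : C.Deg i c) : C.Deg (X.dim + i) (C.mulCorr c) := by
  have h := C.push_mem (Obj.lift (𝟙 X) (𝟙 X)) hc
  exact gr_congr (by rw [dim_prod]; push_cast; ring) h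

/-- If it is finite, the smallest filtration is a Bloch-Beilinson filtration. -/
lemma admFiltration_isBB (hvan : ∀ (X : 𝒱.Obj) (j : ℕ), admFil H (j + 1) X j = ⊥) :
    IsBB H (admFiltration H) where
  bounded :=
    { zero := fun _ _ _ => Iff.rfl
      one := fun X i x => admFil_one X i x
      top := fun X i x hx => by
        have h1 : x ∈ admFil H (i + 1) X i := hx
        rw [hvan] at h1
        exact (Submodule.mem_bot ℚ).1 h1 }
  multiplicative :=
    { mul := fun {X i j m n x y} hx hy => by
        have h1 := ext_mem_admFil hvan m X i x hx X n j y hy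
        have h2 : C.mul x y = C.act (C.cograph (Obj.lift (𝟙 X) (𝟙 X))) (C.ext x y) := by
          rw [C.act_cograph, TheoryData.ext, map_mul, ← C.pull_comp, ← C.pull_comp, lift_fst,
            lift_snd, C.pull_id, C.pull_id]
        rw [h2]
        exact admFil_stable (m + n) _ _ (i + j) (i + j) _
          (gr_congr (by ring) (cograph_deg (H := H) _)) _ h1
      pull := fun {X Y} f {i n y} hy => by
        have h2 : C.up f y = C.act (C.cograph f) y := (C.act_cograph f y).symm
        rw [h2]
        exact admFil_stable n _ _ i i _ (gr_congr (by ring) (cograph_deg (H := H) _)) _ hy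
      push := fun {X Y} f {i j n x} hij hx => by
        have h2 : C.down f x = C.act (C.graph f) x := (C.act_graph f x).symm
        rw [h2]
        refine admFil_stable n _ _ i j _ (gr_congr ?_ (graph_deg (H := H) _)) _ hx
        have h3 : (i : ℤ) + Y.dim = j + X.dim := by exact_mod_cast hij
        linarith }
  motivic := fun hK X i n Γ hΓ hk x hx =>
    admFil_shift n X X i i Γ (gr_congr (by ring) hΓ) (Or.inr ⟨hK, hk⟩) x hx

/-- A Bloch-Beilinson filtration is stable under all correspondences. -/
lemma isBB_stable {F : Filtration C} (hF : IsBB H F) (Z X : 𝒱.Obj) (j i n : ℕ)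
    (Γ : C.A (Z.prod X)) (hΓ : C.Deg (Z.dim + i - j) Γ) (z : C.A Z) (hz : F.Mem j n z)
    {r : ℕ} (hr : ∀ a : ℕ, C.Deg a Γ → F.Mem a r Γ) : F.Mem i (r + n) (C.act Γ z) := by
  by_cases h0 : (0 : ℤ) ≤ Z.dim + i - j
  · obtain ⟨a, ha⟩ := Int.eq_ofNat_of_zero_le h0
    have h1 : F.Mem a r Γ := hr a (ha ▸ hΓ)
    have h2 := hF.multiplicative.mul h1 (hF.multiplicative.pull (fst Z X) hz)
    refine hF.multiplicative.push (snd Z X) ?_ h2
    rw [dim_prod]
    have h3 : ((a + j + X.dim : ℕ) : ℤ) = ((i + (Z.dim + X.dim) : ℕ) : ℤ) := by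
      push_cast
      linarith
    exact_mod_cast h3
  · have h1 : Γ = 0 := by
      have h2 : Γ ∈ C.gr (Z.prod X) (Z.dim + i - j) := hΓ
      rw [C.gr_neg _ _ (by omega)] at h2
      exact (Submodule.mem_bot ℚ).1 h2
    rw [h1, C.act_zero]
    exact Submodule.zero_mem _

lemma isBB_isStable {F : Filtration C} (hF : IsBB H F) : IsStable H F := by
  have hst : ∀ (Z X : 𝒱.Obj) (j i n : ℕ) (Γ : C.A (Z.prod X)), C.Deg (Z.dim + i - j) Γ →
      ∀ z, F.Mem j n z → F.Mem i n (C.act Γ z) := by
    intro Z X j i n Γ hΓ z hz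
    have := isBB_stable hF Z X j i n Γ hΓ z hz (r := 0) (fun a ha =>
      (hF.bounded.zero _ _ _).2 ha)
    rwa [Nat.zero_add] at this
  have hhom : ∀ (Z X : 𝒱.Obj) (j i n : ℕ) (Γ : C.A (Z.prod X)), C.Deg (Z.dim + i - j) Γ →
      (∀ l, Kills H Γ l) → ∀ z, F.Mem j n z → F.Mem i (n + 1) (C.act Γ z) := by
    intro Z X j i n Γ hΓ hk z hz
    have h1 : H.cl Γ = 0 := hom_zero_of_act H (act_eq_zero_of_kills H Γ hk)
    have := isBB_stable hF Z X j i n Γ hΓ z hz (r := 1) (fun a ha =>
      (hF.bounded.one _ _ _).2 ⟨ha, h1⟩)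
    rwa [Nat.add_comm] at this
  refine ⟨hst, ?_⟩
  intro Z X j i n Γ hΓ had z hz
  rcases had with hk | ⟨hK, hk⟩
  · exact hhom Z X j i n Γ hΓ hk z hz
  · obtain ⟨p, hp, hp'⟩ := exists_kunneth hK Z (2 * j - n)
    have h1 : C.act Γ z = C.act (C.comp p Γ) z + C.act Γ (C.act (dg C Z - p) z) := by
      rw [C.act_comp, ← act_map_add, C.act_sub, act_dg, add_sub_cancel]
    rw [h1]
    refine Submodule.add_mem _ ?_ ?_
    · refine hhom Z X j i n _ (comp_mem_deg hp hΓ (by ring)) ?_ z hz
      intro l a ha
      rw [actH_comp, hp' l a ha]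
      split_ifs with h3
      · subst h3
        exact hk a ha
      · rw [TheoryData.act_map_zero]
    · refine hst Z X j i (n + 1) Γ hΓ _ ?_
      refine hF.motivic hK Z j n _ (Submodule.sub_mem _ (dg_mem C Z) hp) ?_ z hz
      intro a ha
      rw [map_sub, TheoryData.act_sub, actH_dg, hp' _ a ha, if_pos rfl, sub_self]

/-- The smallest filtration is contained in every Bloch-Beilinson filtration. -/
lemma admFil_le {F : Filtration C} (hF : IsBB H F) (n : ℕ) (X : 𝒱.Obj) (i : ℕ) :
    admFil H n X i ≤ F.F X i n := by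
  induction n generalizing X i with
  | zero => exact fun z hz => (hF.bounded.zero X i z).2 hz
  | succ n ih =>
    rw [admFil, Submodule.span_le]
    rintro _ ⟨Z, j, z, Γ, hz, hΓ, hk, rfl⟩
    exact (isBB_isStable hF).shift Z X j i n Γ hΓ hk z (ih Z j hz)

/-- The restriction of a Bloch-Beilinson filtration to a single variety. -/
lemma isBBSingle_of_isBB {F : Filtration C} (hF : IsBB H F) (P : 𝒱.Obj) :
    IsBBSingle H P (fun i n => F.F P i n) where
  anti i n := F.anti P i n
  zero i x := hF.bounded.zero P i x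
  one i x := hF.bounded.one P i x
  top i := by
    rw [eq_bot_iff]
    exact fun x hx => (Submodule.mem_bot ℚ).2 (hF.bounded.top P i x hx)
  stable j i n Γ hΓ z hz := (isBB_isStable hF).stable P P j i n Γ hΓ z hz
  shift j i n Γ hΓ hk z hz := (isBB_isStable hF).shift P P j i n Γ hΓ hk z hz

lemma admChain_stable {P : 𝒱.Obj} {n j i : ℕ} {z : C.A P} {Γ : C.A (P.prod P)}
    (hz : AdmChain H P n j z) (hΓ : C.Deg (P.dim + i - j) Γ) :
    AdmChain H P n i (C.act Γ z) := by
  cases hz with
  | nil j z hz => exact AdmChain.nil i _ (act_mem_deg hΓ (i := j) hz (by ring))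
  | cons r j' j z Δ hz hΔ hk =>
    rw [← C.act_comp]
    exact AdmChain.cons r j' i z _ hz (comp_mem_deg hΔ hΓ (by ring)) (admissible_comp_left hk)

lemma admChain_anti {P : 𝒱.Obj} {n j : ℕ} {z : C.A P} (hz : AdmChain H P (n + 1) j z) :
    AdmChain H P n j z := by
  cases hz with
  | cons r j' j z Δ hz hΔ hk => exact admChain_stable hz hΔ

lemma admChain_deg {P : 𝒱.Obj} {n j : ℕ} {z : C.A P} (hz : AdmChain H P n j z) :
    C.Deg j z := by
  induction n with
  | zero => cases hz with
    | nil j z hz => exact hz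
  | succ n ih => exact ih (admChain_anti hz)

lemma admChain_one {P : 𝒱.Obj} {j : ℕ} {z : C.A P} (hz : AdmChain H P 1 j z) :
    H.cl z = 0 := by
  cases hz with
  | cons r j' j z Δ hz hΔ hk =>
    rw [cl_act]
    have h2 := H.cl_mem (show z ∈ C.gr P (j' : ℤ) from admChain_deg hz)
    rcases hk with hk | ⟨_, hk⟩
    · exact hk _ _ h2
    · exact hk _ (by simpa using h2)

/-- The filtration of the Chow groups of a single variety exists if and only if the chains of
self-correspondences vanish. -/
lemma bbSingle_iff (P : 𝒱.Obj) :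
    (∃ Φ, IsBBSingle H P Φ) ↔ ∀ (i : ℕ) (z : C.A P), AdmChain H P (i + 1) i z → z = 0 := by
  constructor
  · rintro ⟨F, hF⟩ i z hz
    have key : ∀ (ν j : ℕ) (z : C.A P), AdmChain H P ν j z → z ∈ F j ν := by
      intro ν j z hz
      induction hz with
      | nil j z hz => exact (hF.zero j z).2 hz
      | cons ν j i z Γ _ hΓ hk ih => exact hF.shift j i ν Γ hΓ hk z ih
    have h1 := key _ _ _ hz
    rw [hF.top i] at h1
    exact (Submodule.mem_bot ℚ).1 h1
  · intro h
    refine ⟨fun j n => Submodule.span ℚ {z | AdmChain H P n j z}, ?_⟩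
    refine ⟨?_, ?_, ?_, ?_, ?_, ?_⟩
    · intro i n
      exact Submodule.span_mono fun z hz => admChain_anti hz
    · intro i x
      constructor
      · intro hx
        have : Submodule.span ℚ {z | AdmChain H P 0 i z} ≤ C.gr P i := by
          rw [Submodule.span_le]
          exact fun z hz => admChain_deg hz
        exact this hx
      · intro hx
        exact Submodule.subset_span (AdmChain.nil i x hx)
    · intro i x
      constructor
      · intro hx
        have : Submodule.span ℚ {z | AdmChain H P (0 + 1) i z} ≤ C.gr P i ⊓ homTriv H P := by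
          rw [Submodule.span_le]
          exact fun z hz => ⟨admChain_deg hz, admChain_one hz⟩
        exact this hx
      · rintro ⟨hx, h0⟩
        have h1 : C.act (C.mulCorr x) 1 = x := by rw [C.act_mulCorr, mul_one]
        apply Submodule.subset_span
        have h2 : AdmChain H P (0 + 1) i (C.act (C.mulCorr x) 1) := by
          refine AdmChain.cons 0 0 i 1 _ (AdmChain.nil 0 1 (C.one_mem P)) ?_ ?_
          · exact gr_congr (by push_cast; ring) (mulCorr_deg (H := H) hx)
          · left
            intro l a _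
            have h2 : H.cl (C.mulCorr x) = 0 := by
              rw [TheoryData.mulCorr, H.cl_push, h0, map_zero]
            rw [h2, TheoryData.act_zero]
        rw [h1] at h2
        exact h2
    · intro i
      rw [Submodule.span_eq_bot]
      exact fun z hz => h i z hz
    · intro j i n Γ hΓ z hz
      induction hz using Submodule.span_induction with
      | mem x hx => exact Submodule.subset_span (admChain_stable hx hΓ)
      | zero => rw [C.act_map_zero]; exact Submodule.zero_mem _
      | add x y _ _ hx hy => rw [act_map_add]; exact Submodule.add_mem _ hx hy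
      | smul q x _ hx => rw [act_map_smul]; exact Submodule.smul_mem _ _ hx
    · intro j i n Γ hΓ hk z hz
      induction hz using Submodule.span_induction with
      | mem x hx => exact Submodule.subset_span (AdmChain.cons n j i x Γ hx hΓ hk)
      | zero => rw [C.act_map_zero]; exact Submodule.zero_mem _
      | add x y _ _ hx hy => rw [act_map_add]; exact Submodule.add_mem _ hx hy
      | smul q x _ hx => rw [act_map_smul]; exact Submodule.smul_mem _ _ hx

end main

end Pool.Agent.Q69.BB
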