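import Pool.Agent.Y148.BB.Defs

/-!
# Chains of self-correspondences
-/

open CategoryTheory AlgebraicGeometry

universe u v w

namespace Pool.Agent.Q69.BB

open Pool.Agent.H914 Pool.Agent.H914.VarClass Pool.Agent.H914.VarClass.Obj Pool.Agent.W492.BB
  Pool.Agent.W550.Corr Pool.Agent.TH133 Pool.Agent.Y148.BB

variable {k : Type u} [Field k] {𝒱 : VarClass k} {C : TheoryData.{u, v, 0} 𝒱 ℚ} {K : Type w}
  [Field K] (H : WeilTheoryData.{u, v, w} C K) (N : ∀ X : 𝒱.Obj, ℕ → Submodule ℚ (C.A X))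

/-- `SelfChain H N P ν i z`: the class `z ∈ CH^i(P)` is obtained from a class in the kernel `N` of
the Abel-Jacobi map by applying successively `ν - 2` self-correspondences of `P` (of any degrees),
the correspondence applied at the `r`-th stage (`r = 2, 3, …`) to a class in `CH^j(P)` acting as
zero on `H^(2j-r)(P)`. -/
inductive SelfChain (P : 𝒱.Obj) : ℕ → ℕ → C.A P → Prop
  | base (j : ℕ) (z : C.A P) (hz : z ∈ N P j) : SelfChain P 2 j z
  | step (ν j i : ℕ) (z : C.A P) (Γ : C.A (P.prod P)) (hz : SelfChain P ν j z)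
      (hΓ : C.Deg (P.dim + i - j) Γ) (hk : Kills H Γ (2 * j - ν)) :
      SelfChain P (ν + 1) i (C.act Γ z)

end Pool.Agent.Q69.BB
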