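import Pool.Agent.Q69.BB.Sub
import Pool.Agent.Q69.BB.ChainDef

/-!
# Bloch-Beilinson filtrations: one variety at a time
-/

open CategoryTheory AlgebraicGeometry

universe u v w

namespace Pool.Agent.Q69.BB

open Pool.Agent.H914 Pool.Agent.H914.VarClass Pool.Agent.H914.VarClass.Obj Pool.Agent.W492.BB
  Pool.Agent.W550.Corr Pool.Agent.TH133 Pool.Agent.Y148.BB

set_option linter.unusedSectionVars false

variable {k : Type u} [Field k] {𝒱 : VarClass k}

section defs

variable {C : TheoryData.{u, v, 0} 𝒱 ℚ} {K : Type w} [Field K] (H : WeilTheoryData.{u, v, w} C K)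
  (N : ∀ X : 𝒱.Obj, ℕ → Submodule ℚ (C.A X))

/-- The homologically trivial classes. -/
noncomputable def homTriv (X : 𝒱.Obj) : Submodule ℚ (C.A X) where
  carrier := {x | H.cl x = 0}
  add_mem' {a b} ha hb := by
    change H.cl (a + b) = 0
    rw [map_add, show H.cl a = 0 from ha, show H.cl b = 0 from hb, add_zero]
  zero_mem' := map_zero _
  smul_mem' q a ha := by
    change H.cl (q • a) = 0
    rw [← one_mul a, ← smul_mul_assoc, map_mul, show H.cl a = 0 from ha, mul_zero]

lemma mem_homTriv {X : 𝒱.Obj} {x : C.A X} : x ∈ homTriv H X ↔ H.cl x = 0 := Iff.rfl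

/-- The smallest filtration `G^ν CH^j(X)` which satisfies all the conditions of a Bloch-Beilinson
filtration except `G^(j+1) CH^j(X) = 0`: the first three steps are `CH^j(X)`, the homologically
trivial classes and the kernel `N` of the Abel-Jacobi map, and for `ν ≥ 2` the step
`G^(ν+1) CH^i(X)` is spanned by the classes `Γ_* z`, where `z ∈ G^ν CH^j(Z)` and the
correspondence `Γ` from `Z` to `X` acts as zero on `H^(2j-ν)(Z)`. -/
noncomputable def minFil : ℕ → (X : 𝒱.Obj) → ℕ → Submodule ℚ (C.A X)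
  | 0, X, j => C.gr X j
  | 1, X, j => C.gr X j ⊓ homTriv H X
  | 2, X, j => N X j
  | (n + 3), X, i => Submodule.span ℚ {c | ∃ (Z : 𝒱.Obj) (j : ℕ) (z : C.A Z) (Γ : C.A (Z.prod X)),
      z ∈ minFil (n + 2) Z j ∧ C.Deg (Z.dim + i - j) Γ ∧ Kills H Γ (2 * j - ((n + 2 : ℕ) : ℤ)) ∧
      c = C.act Γ z}

end defs

section main

variable {C : TheoryData.{u, v, 0} 𝒱 ℚ} [hC : IsChowProj C] {K : Type w} [Field K]
  {H : WeilTheoryData.{u, v, w} C K} [hH : IsWeilProj H]
  {N : ∀ X : 𝒱.Obj, ℕ → Submodule ℚ (C.A X)} {X Y Z W P : 𝒱.Obj}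

include hC hH

lemma minFil_stable (hN : IsAbelJacobiKernel H N) (ν : ℕ) (X Y : 𝒱.Obj) (j i : ℕ)
    (Γ : C.A (X.prod Y)) (hΓ : C.Deg (X.dim + i - j) Γ) (z : C.A X)
    (hz : z ∈ minFil H N ν X j) : C.act Γ z ∈ minFil H N ν Y i := by
  rcases ν with _ | _ | _ | n
  · exact act_mem_deg hΓ (i := j) hz (by ring)
  · refine ⟨act_mem_deg hΓ (i := j) hz.1 (by ring), ?_⟩
    rw [SetLike.mem_coe, mem_homTriv, cl_act, (mem_homTriv H).1 hz.2, TheoryData.act_map_zero]
  · exact hN.stable X Y j i Γ hΓ z hz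
  · rw [minFil] at hz
    induction hz using Submodule.span_induction with
    | mem x hx =>
      obtain ⟨Z, j', z, Δ, hz, hΔ, hk, rfl⟩ := hx
      rw [minFil]
      apply Submodule.subset_span
      refine ⟨Z, j', z, C.comp Δ Γ, hz, comp_mem_deg hΔ hΓ (by ring), kills_comp_of_left H hk, ?_⟩
      rw [C.act_comp]
    | zero => rw [C.act_map_zero]; exact Submodule.zero_mem _
    | add x y _ _ hx hy => rw [act_map_add]; exact Submodule.add_mem _ hx hy
    | smul q x _ hx => rw [act_map_smul]; exact Submodule.smul_mem _ _ hx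

lemma minFil_shift (hN : IsAbelJacobiKernel H N) (ν : ℕ) (X Y : 𝒱.Obj) (j i : ℕ)
    (Γ : C.A (X.prod Y)) (hΓ : C.Deg (X.dim + i - j) Γ) (hk : Kills H Γ (2 * j - ν)) (z : C.A X)
    (hz : z ∈ minFil H N ν X j) : C.act Γ z ∈ minFil H N (ν + 1) Y i := by
  match ν, hz, hk with
  | 0, hz, hk =>
    refine ⟨act_mem_deg hΓ (i := j) hz (by ring), ?_⟩
    rw [SetLike.mem_coe, mem_homTriv, cl_act]
    apply hk
    have := H.cl_mem (show z ∈ C.gr X (j : ℤ) from hz)
    simpa using this
  | 1, hz, hk => exact hN.kills X Y j i Γ hΓ (by simpa using hk) z hz.1 hz.2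
  | (n + 2), hz, hk =>
    rw [minFil]
    exact Submodule.subset_span ⟨X, j, z, Γ, hz, hΓ, hk, rfl⟩

lemma minFil_anti (hN : IsAbelJacobiKernel H N) (ν : ℕ) (X : 𝒱.Obj) (j : ℕ) :
    minFil H N (ν + 1) X j ≤ minFil H N ν X j := by
  match ν with
  | 0 => exact inf_le_left
  | 1 => exact fun z hz => hN.deg X j z hz
  | (n + 2) =>
    rw [minFil, Submodule.span_le]
    rintro _ ⟨Z, i, z, Γ, hz, hΓ, hk, rfl⟩
    exact minFil_stable hN _ _ _ _ _ _ hΓ _ hz

/-- The filtration `minFil` satisfies all the conditions except the last one. -/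
lemma minFil_isBB (hN : IsAbelJacobiKernel H N)
    (h : ∀ (X : 𝒱.Obj) (j : ℕ), minFil H N (j + 1) X j = ⊥) :
    IsBlochBeilinsonOn H N (fun _ => True) (fun X j ν => minFil H N ν X j) where
  anti X _ j ν := minFil_anti hN ν X j
  zero _ _ _ _ := Iff.rfl
  one _ _ _ _ := Iff.rfl
  two _ _ _ := rfl
  top X _ j := h X j
  stable X Y _ _ j i ν Γ hΓ z hz := minFil_stable hN ν X Y j i Γ hΓ z hz
  shift X Y _ _ j i ν Γ hΓ hk z hz := minFil_shift hN ν X Y j i Γ hΓ hk z hz

/-- The filtration `minFil` is contained in every Bloch-Beilinson filtration. -/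
lemma minFil_le {F : ∀ X : 𝒱.Obj, ℕ → ℕ → Submodule ℚ (C.A X)}
    (hF : IsBlochBeilinsonOn H N (fun _ => True) F) (ν : ℕ) (X : 𝒱.Obj) (j : ℕ) :
    minFil H N ν X j ≤ F X j ν := by
  induction ν using Nat.strong_induction_on generalizing X j with
  | _ ν ih =>
    match ν, ih with
    | 0, _ => exact fun z hz => (hF.zero X trivial j z).2 hz
    | 1, _ => exact fun z hz => (hF.one X trivial j z).2 hz
    | 2, _ => rw [hF.two X trivial j]; rfl
    | (n + 3), ih =>
      rw [minFil, Submodule.span_le]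
      rintro _ ⟨Z, i, z, Γ, hz, hΓ, hk, rfl⟩
      exact hF.shift Z X trivial trivial i j (n + 2) Γ hΓ hk z (ih (n + 2) (by omega) Z i hz)

/-- The main step: the classes in `minFil` are controlled by the filtrations of single
varieties. -/
lemma minFil_single (ν : ℕ) (X : 𝒱.Obj) (j : ℕ) (z : C.A X) (hz : z ∈ minFil H N ν X j)
    (hN : IsAbelJacobiKernel H N) :
    ∃ W : 𝒱.Obj, ∀ P, Sub C W P → ∀ F, IsBlochBeilinsonOn H N (fun Y => Y = P) F →
      ∀ (i : ℕ) (Γ : C.A (X.prod P)), C.Deg (X.dim + i - j) Γ → C.act Γ z ∈ F P i ν := by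
  induction ν using Nat.strong_induction_on generalizing X j z with
  | _ ν ih =>
    rcases ν with _ | _ | _ | n
    · refine ⟨X, fun P _ F hF i Γ hΓ => (hF.zero P rfl i _).2 ?_⟩
      exact act_mem_deg hΓ (i := j) hz (by ring)
    · refine ⟨X, fun P _ F hF i Γ hΓ => (hF.one P rfl i _).2 ⟨?_, ?_⟩⟩
      · exact act_mem_deg hΓ (i := j) hz.1 (by ring)
      · rw [cl_act, (mem_homTriv H).1 hz.2, TheoryData.act_map_zero]
    · refine ⟨X, fun P _ F hF i Γ hΓ => ?_⟩
      rw [hF.two P rfl i]
      exact hN.stable X P j i Γ hΓ z hz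
    · rw [minFil] at hz
      induction hz using Submodule.span_induction with
      | mem x hx =>
        obtain ⟨Z, j', z', Γ', hz', hΓ', hk, rfl⟩ := hx
        obtain ⟨W', hW'⟩ := ih (n + 2) (by omega) Z j' z' hz'
        refine ⟨W'.prod Z, fun P hP F hF i Γ hΓ => ?_⟩
        obtain ⟨α, β, hα, hβ, hαβ⟩ := sub_trans (sub_snd (C := C) W' Z) hP
        have h1 : C.act α z' ∈ F P j' (n + 2) :=
          hW' P (sub_trans (sub_fst W' Z) hP) F hF j' α (by
            have e : (Z.dim : ℤ) + j' - j' = Z.dim := by ring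
            rw [e]; exact hα)
        have hk2 : Kills H (C.comp (C.comp β Γ') Γ) (2 * j' - ((n + 2 : ℕ) : ℤ)) :=
          kills_comp_of_left H (kills_comp_of_right H hβ (by ring) hk)
        have h2 := hF.shift P P rfl rfl j' i (n + 2) (C.comp (C.comp β Γ') Γ)
          (comp_mem_deg (comp_mem_deg hβ hΓ' (c := P.dim + j - j') (by ring)) hΓ (by ring))
          hk2 _ h1
        have h3 : C.act (C.comp (C.comp β Γ') Γ) (C.act α z') = C.act Γ (C.act Γ' z') := by
          rw [C.act_comp, C.act_comp, ← C.act_comp α β, hαβ, act_dg]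
        rw [h3] at h2
        exact h2
      | zero =>
        refine ⟨X, fun P _ F hF i Γ hΓ => ?_⟩
        rw [C.act_map_zero]
        exact Submodule.zero_mem _
      | add x y _ _ hx hy =>
        obtain ⟨W1, h1⟩ := hx
        obtain ⟨W2, h2⟩ := hy
        refine ⟨W1.prod W2, fun P hP F hF i Γ hΓ => ?_⟩
        rw [act_map_add]
        exact Submodule.add_mem _ (h1 P (sub_trans (sub_fst W1 W2) hP) F hF i Γ hΓ)
          (h2 P (sub_trans (sub_snd W1 W2) hP) F hF i Γ hΓ)
      | smul q x _ hx =>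
        obtain ⟨W1, h1⟩ := hx
        refine ⟨W1, fun P hP F hF i Γ hΓ => ?_⟩
        rw [act_map_smul]
        exact Submodule.smul_mem _ _ (h1 P hP F hF i Γ hΓ)

/-- A homologically trivial class of codimension zero vanishes. -/
lemma eq_zero_of_deg_zero {z : C.A X} (hz : z ∈ C.gr X 0) (h : H.cl z = 0) : z = 0 := by
  obtain ⟨q, rfl⟩ := hC.gr_zero X z hz
  by_cases hq : q = 0
  · rw [hq, zero_smul]
  · exfalso
    apply hH.one_ne_zero X
    have h1 : (1 : C.A X) = q⁻¹ • (1 : C.A X) * q • (1 : C.A X) := by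
      rw [smul_mul_smul_comm, inv_mul_cancel₀ hq, one_smul, one_mul]
    rw [← map_one H.cl, h1, map_mul, h, mul_zero]

lemma not_selfChain_one {P : 𝒱.Obj} {ν j : ℕ} {z : C.A P} (hz : SelfChain H N P ν j z) :
    2 ≤ ν := by
  induction hz with
  | base => exact le_rfl
  | step ν j i z Γ _ _ _ ih => omega

lemma selfChain_two {P : 𝒱.Obj} {ν j : ℕ} {z : C.A P} (hz : SelfChain H N P ν j z) (h : ν = 2) :
    z ∈ N P j := by
  cases hz with
  | base j z hz => exact hz
  | step ν j i z Γ hz _ _ =>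
    have := not_selfChain_one hz
    omega

lemma selfChain_stable (hN : IsAbelJacobiKernel H N) {P : 𝒱.Obj} {ν j i : ℕ} {z : C.A P}
    {Γ : C.A (P.prod P)} (hz : SelfChain H N P ν j z) (hΓ : C.Deg (P.dim + i - j) Γ) :
    SelfChain H N P ν i (C.act Γ z) := by
  cases hz with
  | base j z hz => exact SelfChain.base i _ (hN.stable P P j i Γ hΓ z hz)
  | step ν j' j z Δ hz hΔ hk =>
    rw [← C.act_comp]
    exact SelfChain.step ν j' i z _ hz (comp_mem_deg hΔ hΓ (by ring)) (kills_comp_of_left H hk)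

lemma selfChain_anti (hN : IsAbelJacobiKernel H N) {P : 𝒱.Obj} {ν j : ℕ} {z : C.A P}
    (hz : SelfChain H N P (ν + 1) j z) (hν : 2 ≤ ν) : SelfChain H N P ν j z := by
  cases hz with
  | base j z hz => omega
  | step ν j' j z Δ hz hΔ hk => exact selfChain_stable hN hz hΔ

/-- The smallest filtration of the Chow groups of the variety `P` alone. -/
noncomputable def selfFil (H : WeilTheoryData.{u, v, w} C K)
    (N : ∀ X : 𝒱.Obj, ℕ → Submodule ℚ (C.A X)) (P : 𝒱.Obj) (j : ℕ) : ℕ → Submodule ℚ (C.A P)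
  | 0 => C.gr P j
  | 1 => C.gr P j ⊓ homTriv H P
  | (n + 2) => Submodule.span ℚ {z | SelfChain H N P (n + 2) j z}

lemma selfFil_two (P : 𝒱.Obj) (j : ℕ) : selfFil H N P j 2 = N P j := by
  apply le_antisymm
  · rw [selfFil, Submodule.span_le]
    exact fun z hz => selfChain_two hz rfl
  · intro z hz
    exact Submodule.subset_span (SelfChain.base j z hz)

/-- The filtration of the Chow groups of a single variety exists if and only if the chains of
self-correspondences vanish. -/
lemma single_iff (hN : IsAbelJacobiKernel H N) (P : 𝒱.Obj) :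
    (∃ F, IsBlochBeilinsonOn H N (fun Y => Y = P) F) ↔
      ∀ (i : ℕ) (z : C.A P), SelfChain H N P (i + 1) i z → z = 0 := by
  constructor
  · rintro ⟨F, hF⟩ i z hz
    have key : ∀ (ν j : ℕ) (z : C.A P), SelfChain H N P ν j z → z ∈ F P j ν := by
      intro ν j z hz
      induction hz with
      | base j z hz =>
        rw [hF.two P rfl j]
        exact hz
      | step ν j i z Γ _ hΓ hk ih => exact hF.shift P P rfl rfl j i ν Γ hΓ hk z ih
    have h1 := key _ _ _ hz
    rw [hF.top P rfl i] at h1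
    exact (Submodule.mem_bot ℚ).1 h1
  · intro h
    refine ⟨fun X j ν => selfFil H N X j ν, ?_⟩
    refine ⟨?_, ?_, ?_, ?_, ?_, ?_, ?_⟩
    · rintro X rfl j ν
      rcases ν with _ | _ | n
      · exact inf_le_left
      · intro z hz
        have hz' : z ∈ selfFil H N X j 2 := hz
        rw [selfFil_two] at hz'
        exact hN.deg X j z hz'
      · change Submodule.span ℚ _ ≤ Submodule.span ℚ _
        exact Submodule.span_mono fun z hz => selfChain_anti hN hz (by omega)
    · rintro X rfl j z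
      exact Iff.rfl
    · rintro X rfl j z
      exact Iff.rfl
    · rintro X rfl j
      exact selfFil_two X j
    · rintro X rfl j
      rcases j with _ | j
      · rw [eq_bot_iff]
        rintro z ⟨hz, hz'⟩
        exact (Submodule.mem_bot ℚ).2 (eq_zero_of_deg_zero (by exact_mod_cast hz) hz')
      · change Submodule.span ℚ _ = ⊥
        rw [Submodule.span_eq_bot]
        exact fun z hz => h _ z hz
    · rintro X Y rfl hY j i ν Γ hΓ z hz
      subst hY
      rcases ν with _ | _ | n
      · exact act_mem_deg hΓ (i := j) hz (by ring)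
      · refine ⟨act_mem_deg hΓ (i := j) hz.1 (by ring), ?_⟩
        rw [SetLike.mem_coe, mem_homTriv, cl_act, (mem_homTriv H).1 hz.2, TheoryData.act_map_zero]
      · change z ∈ Submodule.span ℚ _ at hz
        change _ ∈ Submodule.span ℚ _
        induction hz using Submodule.span_induction with
        | mem x hx => exact Submodule.subset_span (selfChain_stable hN hx hΓ)
        | zero => rw [C.act_map_zero]; exact Submodule.zero_mem _
        | add x y _ _ hx hy => rw [act_map_add]; exact Submodule.add_mem _ hx hy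
        | smul q x _ hx => rw [act_map_smul]; exact Submodule.smul_mem _ _ hx
    · rintro X Y rfl hY j i ν Γ hΓ hk z hz
      subst hY
      rcases ν with _ | _ | n
      · refine ⟨act_mem_deg hΓ (i := j) hz (by ring), ?_⟩
        rw [SetLike.mem_coe, mem_homTriv, cl_act]
        apply hk
        have := H.cl_mem (show z ∈ C.gr _ (j : ℤ) from hz)
        simpa using this
      · change _ ∈ selfFil H N _ i 2
        rw [selfFil_two]
        exact hN.kills _ _ j i Γ hΓ (by simpa using hk) z hz.1 hz.2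
      · change z ∈ Submodule.span ℚ _ at hz
        change _ ∈ Submodule.span ℚ _
        induction hz using Submodule.span_induction with
        | mem x hx => exact Submodule.subset_span (SelfChain.step _ j i x Γ hx hΓ hk)
        | zero => rw [C.act_map_zero]; exact Submodule.zero_mem _
        | add x y _ _ hx hy => rw [act_map_add]; exact Submodule.add_mem _ hx hy
        | smul q x _ hx => rw [act_map_smul]; exact Submodule.smul_mem _ _ hx

/-- The filtrations of single varieties suffice. -/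
lemma global_of_single (hN : IsAbelJacobiKernel H N) {D : 𝒱.Obj → Prop}
    (hD : ∀ X, SummandOf C D X)
    (h : ∀ P, D P → ∃ F, IsBlochBeilinsonOn H N (fun Y => Y = P) F) :
    IsBlochBeilinsonOn H N (fun _ => True) (fun X j ν => minFil H N ν X j) := by
  apply minFil_isBB hN
  intro X j
  rw [eq_bot_iff]
  intro z hz
  rw [Submodule.mem_bot]
  obtain ⟨W, hW⟩ := minFil_single (j + 1) X j z hz hN
  obtain ⟨P, hP, hWP⟩ := hD (W.prod X)
  obtain ⟨F, hF⟩ := h P hP
  obtain ⟨α, β, hα, hβ, hαβ⟩ := sub_trans (sub_snd (C := C) W X) hWP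
  have h1 := hW P (sub_trans (sub_fst W X) hWP) F hF j α (by
    have e : (X.dim : ℤ) + j - j = X.dim := by ring
    rw [e]; exact hα)
  rw [hF.top P rfl j, Submodule.mem_bot] at h1
  rw [← act_dg C z, ← hαβ, C.act_comp, h1, C.act_map_zero]

end main

end Pool.Agent.Q69.BB
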