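import Pool.Agent.Y148.BB.Corr

/-!
# Direct summands of Chow motives of varieties
-/

open CategoryTheory AlgebraicGeometry

universe u v w

namespace Pool.Agent.Q69.BB

open Pool.Agent.H914 Pool.Agent.H914.VarClass Pool.Agent.H914.VarClass.Obj Pool.Agent.W492.BB
  Pool.Agent.W550.Corr Pool.Agent.TH133 Pool.Agent.Y148.BB

set_option linter.unusedSectionVars false

variable {k : Type u} [Field k] {𝒱 : VarClass k}

/-- The Chow motive of `X` is a direct summand of the Chow motive of `P`. -/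
def Sub (C : TheoryData.{u, v, 0} 𝒱 ℚ) (X P : 𝒱.Obj) : Prop :=
  ∃ (f : C.A (X.prod P)) (g : C.A (P.prod X)),
    C.Deg X.dim f ∧ C.Deg P.dim g ∧ C.comp f g = dg C X

section chow

variable {C : TheoryData.{u, v, 0} 𝒱 ℚ} [hC : IsChowProj C] {X Y Z W P : 𝒱.Obj}

include hC

lemma comp_wg (b : Y ⟶ Z) (u : C.A Y) (Γ : C.A (X.prod Y)) :
    C.comp Γ (wg C b u) = C.push (prodMap (𝟙 X) b) (C.pull (snd X Y) u * Γ) := by
  rw [comp_eq_extR, TheoryData.extR, wg, C.base_snd, ← C.proj_right, ← C.push_comp,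
    ← C.pull_comp]
  have e1 : prodMap (𝟙 X) (Obj.lift (𝟙 Y) b) ≫ u12 X Y Z = 𝟙 _ := by
    apply prod_ext <;> simp [u12]
  have e2 : prodMap (𝟙 X) (Obj.lift (𝟙 Y) b) ≫ u13 X Y Z = prodMap (𝟙 X) b := by
    apply prod_ext <;> simp [u13]
  rw [e1, e2, C.pull_id]

lemma comp_mem_deg {Γ : C.A (X.prod Y)} {Δ : C.A (Y.prod Z)} {a b c : ℤ}
    (hΓ : C.Deg a Γ) (hΔ : C.Deg b Δ) (h : a + b = Y.dim + c) :
    C.Deg c (C.comp Γ Δ) := by
  have h1 : Γ ∈ C.gr (X.prod Y) (X.dim + (a - X.dim)) := gr_congr (by ring) hΓ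
  have h2 : Δ ∈ C.gr (Y.prod Z) (Y.dim + (b - Y.dim)) := gr_congr (by ring) hΔ
  exact gr_congr (by linarith) (comp_mem C h1 h2)

lemma act_mem_deg {Γ : C.A (X.prod Y)} {a i j : ℤ} (hΓ : C.Deg a Γ) {x : C.A X}
    (hx : C.Deg i x) (h : a + i = X.dim + j) : C.Deg j (C.act Γ x) := by
  have h1 : Γ ∈ C.gr (X.prod Y) (X.dim + (a - X.dim)) := gr_congr (by ring) hΓ
  exact gr_congr (by linarith) (act_mem' C h1 hx)

/-- The section and the retraction of a morphism `b` with respect to the class `u`, when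
`b_* u = 1`. -/
lemma sub_of_push (b : Y ⟶ Z) (u : C.A Y) {e : ℤ} (hu : C.Deg e u) (he : e + Z.dim = Y.dim)
    (h1 : C.push b u = 1) : Sub C Z Y := by
  refine ⟨tp C (C.graph b), wg C b u, ?_, gr_congr he (wg_mem b hu), ?_⟩
  · have h := wg_mem b (C.one_mem Y)
    exact tp_mem C (gr_congr (by ring) h)
  · have e1 : C.pull (prodMap (𝟙 Z) b) (dg C Z) = tp C (C.graph b) := by
      rw [pull_eq_comp, dg_comp]
    rw [← e1, comp_wg, C.proj_right, ← C.base_snd, h1, map_one, one_mul]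

lemma sub_refl (X : 𝒱.Obj) : Sub C X X :=
  ⟨dg C X, dg C X, dg_mem C X, dg_mem C X, comp_dg C _⟩

lemma sub_trans (h : Sub C X Y) (h' : Sub C Y Z) : Sub C X Z := by
  obtain ⟨f, g, hf, hg, hfg⟩ := h
  obtain ⟨f', g', hf', hg', hfg'⟩ := h'
  refine ⟨C.comp f f', C.comp g' g, comp_mem_deg hf hf' (by ring),
    comp_mem_deg hg' hg (by ring), ?_⟩
  rw [comp_assoc, ← comp_assoc C f', hfg', dg_comp, hfg]

lemma sub_fst (X Y : 𝒱.Obj) : Sub C X (X.prod Y) := by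
  obtain ⟨a, ha, h1, h2⟩ := exists_deg_one C Y
  exact sub_of_push (fst X Y) (C.pull (snd X Y) a) (C.pull_mem _ ha)
    (by rw [dim_prod]; push_cast; ring) (h1 X)

lemma sub_snd (X Y : 𝒱.Obj) : Sub C Y (X.prod Y) := by
  obtain ⟨a, ha, h1, h2⟩ := exists_deg_one C X
  exact sub_of_push (snd X Y) (C.pull (fst X Y) a) (C.pull_mem _ ha)
    (by rw [dim_prod]; push_cast; ring) (h2 Y)

lemma summandOf_iff {S : 𝒱.Obj → Prop} : SummandOf C S X ↔ ∃ P, S P ∧ Sub C X P := Iff.rfl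

end chow

section weil

variable {C : TheoryData.{u, v, 0} 𝒱 ℚ} [hC : IsChowProj C] {K : Type w} [Field K]
  (H : WeilTheoryData.{u, v, w} C K) [hH : IsWeilProj H] {X Y Z W : 𝒱.Obj}

include hC hH

lemma kills_comp_of_left {Γ : C.A (X.prod Y)} {Δ : C.A (Y.prod Z)} {m : ℤ}
    (h : Kills H Γ m) : Kills H (C.comp Γ Δ) m := by
  intro a ha
  rw [actH_comp, h a ha, TheoryData.act_map_zero]

lemma kills_comp_of_right {Γ : C.A (X.prod Y)} {Δ : C.A (Y.prod Z)} {m n a : ℤ}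
    (hΓ : C.Deg a Γ) (hm : m + 2 * a = 2 * X.dim + n) (h : Kills H Δ n) :
    Kills H (C.comp Γ Δ) m := by
  intro x hx
  rw [actH_comp]
  apply h
  have h1 : Γ ∈ C.gr (X.prod Y) (X.dim + (a - X.dim)) := gr_congr (by ring) hΓ
  have h2 := actH_mem H h1 hx
  have e : m + 2 * (a - X.dim) = n := by linarith
  rw [e] at h2
  exact h2

end weil

end Pool.Agent.Q69.BB
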